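import Pool.Agent.H13.EDM.Targets

/-!
# Row CMN: common choice of the members
-/

set_option autoImplicit false

open MvPolynomial

namespace Pool.Agent.H97.EDM

open Pool.Agent.H8.TD (lc dg Wsp)
open Pool.Agent.H13.EDM

theorem pf_CMN (h1 : T_MDM) (h2 : T_GNM) : T_CMN := by
  intro n a k K _ _ _ _ φ ψ I htr hfg
  classical
  haveI : Infinite k := Infinite.of_injective (Nat.cast : ℕ → k) Nat.cast_injective
  induction I using Finset.induction_on with
  | empty =>
    intro _
    obtain ⟨s, hs⟩ := (h1 n a k K φ htr hfg).2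
    obtain ⟨t, ht⟩ := (h1 n a k K ψ htr hfg).2
    exact ⟨s, t, by simp, hs, ht⟩
  | insert l₀ I hl₀ ih =>
    intro hI
    obtain ⟨s, t, hst, hs, ht⟩ := ih (fun l hl => hI l (Finset.mem_insert_of_mem hl))
    have key : ∀ (θ : Fin n → Fin a → K) (r : Fin n → Fin a → k) (v : Fin a → k),
        (fun l => lc (Function.update r l₀ v l) (θ l)) =
          Function.update (fun l => lc (r l) (θ l)) l₀ (lc v (θ l₀)) := by
      intro θ r v
      funext l
      by_cases hl : l = l₀
      · subst hl
        simp
      · simp [Function.update_of_ne hl]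
    have fin : ∀ (θ : Fin n → Fin a → K) (r : Fin n → Fin a → k) (v : Fin a → k),
        dg k (Set.range fun l => lc (r l) (θ l)) = md k θ →
        (∀ s' : Fin a → k, dg k (Set.range (Function.update (fun l => lc (r l) (θ l)) l₀
          (lc s' (θ l₀)))) ≤ dg k (Set.range (Function.update (fun l => lc (r l) (θ l)) l₀
          (lc v (θ l₀))))) →
        dg k (Set.range fun l => lc (Function.update r l₀ v l) (θ l)) = md k θ := by
      intro θ r v hr hv
      refine le_antisymm ((h1 n a k K θ htr hfg).1 _) ?_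
      rw [key, ← hr]
      have h3 := hv (r l₀)
      have h4 : Function.update (fun l => lc (r l) (θ l)) l₀ (lc (r l₀) (θ l₀)) =
          fun l => lc (r l) (θ l) := Function.update_eq_self l₀ (fun l => lc (r l) (θ l))
      rwa [h4] at h3
    obtain ⟨P₁, hP₁, hP₁'⟩ := h2 n a k K (φ l₀) (fun l => lc (s l) (φ l)) l₀ htr hfg
    obtain ⟨P₂, hP₂, hP₂'⟩ := h2 n a k K (ψ l₀) (fun l => lc (t l) (ψ l)) l₀ htr hfg
    obtain ⟨v, hv⟩ : ∃ v, eval v (P₁ * P₂) ≠ 0 := by
      by_contra hcon
      push Not at hcon
      exact mul_ne_zero hP₁ hP₂ (MvPolynomial.funext fun v => by rw [hcon v, map_zero])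
    rw [map_mul] at hv
    refine ⟨Function.update s l₀ v, Function.update t l₀ v, ?_, ?_, ?_⟩
    · intro l hl
      by_cases h : l = l₀
      · subst h
        simp
      · rw [Function.update_of_ne h, Function.update_of_ne h]
        exact hst l ((Finset.mem_insert.1 hl).resolve_left h)
    · exact fin φ s v hs fun s' => hP₁' v (left_ne_zero_of_mul hv) s'
    · exact fin ψ t v ht fun s' => hP₂' v (right_ne_zero_of_mul hv) s'

end Pool.Agent.H97.EDM
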