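import Pool.Agent.H13.EDM.Targets

/-!
# Row LM0: numbers, a limit
-/

set_option autoImplicit false

open Filter Topology

namespace Pool.Agent.H97.EDM

open Pool.Agent.H13.EDM

theorem pf_LM0 : T_LM0 := by
  intro n Q R c h
  have h1 : ∀ m : ℕ, Q * (m + 1) ^ n ≤ n.factorial * R * (m + c) ^ n := by
    intro m
    have h2 : (m + 1) ^ n ≤ n.factorial * (m + n).choose n := by
      rw [← Nat.ascFactorial_eq_factorial_mul_choose]
      exact Nat.pow_succ_le_ascFactorial (m + 1) n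
    calc Q * (m + 1) ^ n ≤ Q * (n.factorial * (m + n).choose n) := Nat.mul_le_mul_left _ h2
      _ = n.factorial * (Q * (m + n).choose n) := by ring
      _ ≤ n.factorial * (R * (m + c) ^ n) := Nat.mul_le_mul_left _ (h m)
      _ = n.factorial * R * (m + c) ^ n := by ring
  have h3 : ∀ m : ℕ, (Q : ℝ) ≤
      (n.factorial * R : ℕ) * ((1 : ℝ) + ((c : ℝ) - 1) / ((m : ℝ) + 1)) ^ n := by
    intro m
    have hm : (0 : ℝ) < (m : ℝ) + 1 := by positivity
    have h4 : (1 : ℝ) + ((c : ℝ) - 1) / ((m : ℝ) + 1) = ((m : ℝ) + c) / ((m : ℝ) + 1) := by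
      field_simp
      ring
    rw [h4, div_pow, ← mul_div_assoc, le_div_iff₀ (by positivity)]
    exact_mod_cast h1 m
  have h5 : Tendsto (fun m : ℕ => ((n.factorial * R : ℕ) : ℝ) *
      ((1 : ℝ) + ((c : ℝ) - 1) / ((m : ℝ) + 1)) ^ n) atTop
      (𝓝 (((n.factorial * R : ℕ) : ℝ) * (1 + 0) ^ n)) := by
    refine Tendsto.const_mul _ (Tendsto.pow (Tendsto.const_add _ ?_) _)
    have h6 : Tendsto (fun m : ℕ => (m : ℝ) + 1) atTop atTop :=
      tendsto_atTop_add_const_right _ _ tendsto_natCast_atTop_atTop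
    exact tendsto_const_nhds.div_atTop h6
  have h7 := ge_of_tendsto' h5 h3
  rw [add_zero, one_pow, mul_one] at h7
  exact_mod_cast h7

end Pool.Agent.H97.EDM
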